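import Mathlib
import Pool.Agent.Helper40.Nil.Stmts

/-! Module SCH of project Nil: squares of moduli of positive definite functions; quotients. -/

set_option autoImplicit false

namespace Pool.Agent.Helper40.Nil

open Filter Topology
open scoped ComplexConjugate InnerProductSpace ComplexOrder

universe u

theorem sch_conj {V : Type u} [Group V] {φ : V → ℂ} (h : φ ∈ KK V) (x : V) :
    φ x⁻¹ = conj (φ x) := by
  classical
  obtain ⟨hpd, h1⟩ := h
  by_cases hx : x = 1
  · rw [hx, inv_one, h1, map_one]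
  have hne : (1 : V) ≠ x := fun h0 => hx h0.symm
  have key : ∀ c : V → ℂ, ∑ a ∈ ({1, x} : Finset V), ∑ b ∈ ({1, x} : Finset V),
      conj (c a) * c b * φ (a⁻¹ * b) =
      conj (c 1) * c 1 + conj (c 1) * c x * φ x + (conj (c x) * c 1 * φ x⁻¹ +
        conj (c x) * c x) := by
    intro c
    rw [Finset.sum_pair hne, Finset.sum_pair hne, Finset.sum_pair hne]
    simp [h1]
  have hA := (hpd {1, x} (fun _ => 1)).2
  have hB := (hpd {1, x} (fun a => if a = x then Complex.I else 1)).2
  rw [key] at hA hB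
  simp only [hne, if_true, if_false, map_one, one_mul, mul_one, Complex.conj_I] at hA hB
  simp at hA hB
  apply Complex.ext
  · simp
    linarith
  · simp
    linarith

theorem sch_pos {V : Type u} [Group V] {φ : V → ℂ} (h : φ ∈ KK V) :
    (Matrix.of (fun x y : V => φ (x⁻¹ * y))).PosSemidef := by
  classical
  refine ⟨?_, fun f => ?_⟩
  · ext x y
    rw [Matrix.conjTranspose_apply, Matrix.of_apply, Matrix.of_apply]
    have h1 := sch_conj h (y⁻¹ * x)
    rw [mul_inv_rev, inv_inv] at h1
    rw [h1]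
    rfl
  · have h2 := h.1 f.support (fun x => f x)
    rw [Complex.nonneg_iff]
    have h3 : (f.sum fun i xi => f.sum fun j xj =>
        star xi * (Matrix.of (fun x y : V => φ (x⁻¹ * y))) i j * xj) =
        ∑ x ∈ f.support, ∑ y ∈ f.support, conj (f x) * f y * φ (x⁻¹ * y) := by
      unfold Finsupp.sum
      apply Finset.sum_congr rfl
      intro x _
      apply Finset.sum_congr rfl
      intro y _
      show conj (f x) * φ (x⁻¹ * y) * f y = _
      ring
    rw [h3]
    exact ⟨h2.1, h2.2.symm⟩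

theorem sch_of_pos {V : Type u} [Group V] {φ : V → ℂ}
    (h : (Matrix.of (fun x y : V => φ (x⁻¹ * y))).PosSemidef) : IsPD φ := by
  classical
  intro s c
  have h1 := h.2 (Finsupp.onFinset s (fun x => if x ∈ s then c x else 0) (by
    intro x hx
    by_contra hn
    simp [hn] at hx))
  have h3 : ((Finsupp.onFinset s (fun x => if x ∈ s then c x else 0) (by
    intro x hx
    by_contra hn
    simp [hn] at hx)).sum fun i xi => (Finsupp.onFinset s (fun x => if x ∈ s then c x else 0) (by
    intro x hx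
    by_contra hn
    simp [hn] at hx)).sum fun j xj =>
      star xi * (Matrix.of (fun x y : V => φ (x⁻¹ * y))) i j * xj) =
      ∑ x ∈ s, ∑ y ∈ s, conj (c x) * c y * φ (x⁻¹ * y) := by
    rw [Finsupp.onFinset_sum _ (fun x => by simp)]
    apply Finset.sum_congr rfl
    intro x hx
    rw [Finsupp.onFinset_sum _ (fun x => by simp)]
    apply Finset.sum_congr rfl
    intro y hy
    rw [Matrix.of_apply, if_pos hx, if_pos hy]
    show conj (c x) * φ (x⁻¹ * y) * c y = _
    ring
  rw [h3, Complex.nonneg_iff] at h1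
  exact ⟨h1.1, h1.2.symm⟩

theorem sch_sq {V : Type u} [Group V] {φ : V → ℂ} (h : φ ∈ KK V) :
    (fun x => ((‖φ x‖ ^ 2 : ℝ) : ℂ)) ∈ KK V := by
  have hA := sch_pos h
  have hB := hA.transpose
  have hAB := hA.hadamard hB
  refine ⟨sch_of_pos ?_, ?_⟩
  · have h1 : (Matrix.of (fun x y : V => (((‖φ (x⁻¹ * y)‖ ^ 2 : ℝ) : ℂ)))) =
        Matrix.hadamard (Matrix.of (fun x y : V => φ (x⁻¹ * y)))
          (Matrix.transpose (Matrix.of (fun x y : V => φ (x⁻¹ * y)))) := by
      ext x y
      rw [Matrix.hadamard_apply, Matrix.transpose_apply, Matrix.of_apply, Matrix.of_apply,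
        Matrix.of_apply]
      have h2 := sch_conj h (x⁻¹ * y)
      rw [mul_inv_rev, inv_inv] at h2
      rw [h2, Complex.mul_conj, Complex.normSq_eq_norm_sq]
    rw [h1]
    exact hAB
  · show ((‖φ 1‖ ^ 2 : ℝ) : ℂ) = 1
    rw [h.2]
    simp

theorem st_SCH (_ : ST_GNS.{u}) : ST_SCH.{u} := by
  classical
  intro V _
  refine ⟨fun φ hφ => sch_sq hφ, ?_⟩
  intro N _ Ψ hΨ hinv
  have hval : ∀ (a b : V), (a : V ⧸ N) = (b : V ⧸ N) → Ψ a = Ψ b := by
    intro a b hab
    rw [QuotientGroup.eq] at hab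
    have h1 : a * (a⁻¹ * b) * a⁻¹ ∈ N := Subgroup.Normal.conj_mem inferInstance _ hab a
    have h2 := hinv _ h1 a
    rw [← h2]
    congr 1
    group
  refine ⟨fun q => Ψ (Quotient.out q), ⟨?_, ?_⟩, fun y => ?_⟩
  · intro s c
    have hinj : Function.Injective (Quotient.out : V ⧸ N → V) := Quotient.out_injective
    have h1 := hΨ.1 (s.image Quotient.out) (fun x => c (x : V ⧸ N))
    have h2 : ∑ x ∈ s.image (Quotient.out : V ⧸ N → V), ∑ y ∈ s.image (Quotient.out : V ⧸ N → V),
        conj (c (x : V ⧸ N)) * c (y : V ⧸ N) * Ψ (x⁻¹ * y) =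
        ∑ p ∈ s, ∑ q ∈ s, conj (c p) * c q * Ψ (Quotient.out (p⁻¹ * q)) := by
      rw [Finset.sum_image (fun a _ b _ hab => hinj hab)]
      apply Finset.sum_congr rfl
      intro p _
      rw [Finset.sum_image (fun a _ b _ hab => hinj hab)]
      apply Finset.sum_congr rfl
      intro q _
      have hp : ((Quotient.out p : V) : V ⧸ N) = p := QuotientGroup.out_eq' p
      have hq : ((Quotient.out q : V) : V ⧸ N) = q := QuotientGroup.out_eq' q
      rw [hp, hq]
      congr 1
      apply hval
      rw [QuotientGroup.mk_mul, QuotientGroup.mk_inv, hp, hq]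
      exact (QuotientGroup.out_eq' _).symm
    rw [h2] at h1
    exact h1
  · show Ψ (Quotient.out (1 : V ⧸ N)) = 1
    rw [← hΨ.2]
    apply hval
    exact QuotientGroup.out_eq' _
  · apply hval
    exact QuotientGroup.out_eq' _

end Pool.Agent.Helper40.Nil
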