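import Mathlib
import Pool.Agent.Helper40.Nil.Stmts

/-! Module SIM of project Nil: Simons' inequality. -/

set_option autoImplicit false

namespace Pool.Agent.Helper40.Nil

open Filter Topology

universe u

/-- the maximum of a continuous function -/
noncomputable def sim_S {K : Type u} [TopologicalSpace K] (y : C(K, ℝ)) : ℝ := ⨆ t, y t

theorem sim_le {K : Type u} [TopologicalSpace K] [CompactSpace K] (y : C(K, ℝ)) (t : K) :
    y t ≤ sim_S y :=
  le_ciSup (isCompact_range y.continuous).bddAbove t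

theorem sim_S_le {K : Type u} [TopologicalSpace K] [Nonempty K] (y : C(K, ℝ)) (M : ℝ)
    (h : ∀ t, y t ≤ M) : sim_S y ≤ M := ciSup_le h

/-- the closed convex hulls of the tails -/
def sim_C {K : Type u} [TopologicalSpace K] [CompactSpace K] (f : ℕ → C(K, ℝ)) (n : ℕ) :
    Set C(K, ℝ) := closure (convexHull ℝ (f '' Set.Ici n))

theorem sim_C_min {K : Type u} [TopologicalSpace K] [CompactSpace K] (f : ℕ → C(K, ℝ)) (n : ℕ)
    (P : Set C(K, ℝ)) (hP : IsClosed P) (hc : Convex ℝ P) (h : ∀ p, n ≤ p → f p ∈ P) :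
    sim_C f n ⊆ P := by
  apply closure_minimal _ hP
  apply convexHull_min _ hc
  rintro _ ⟨p, hp, rfl⟩
  exact h p hp

theorem sim_C_convex {K : Type u} [TopologicalSpace K] [CompactSpace K] (f : ℕ → C(K, ℝ))
    (n : ℕ) : Convex ℝ (sim_C f n) := (convex_convexHull ℝ _).closure

theorem sim_C_closed {K : Type u} [TopologicalSpace K] [CompactSpace K] (f : ℕ → C(K, ℝ))
    (n : ℕ) : IsClosed (sim_C f n) := isClosed_closure

theorem sim_C_mem {K : Type u} [TopologicalSpace K] [CompactSpace K] (f : ℕ → C(K, ℝ))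
    (n : ℕ) : f n ∈ sim_C f n :=
  subset_closure (subset_convexHull ℝ _ ⟨n, Set.mem_Ici.2 le_rfl, rfl⟩)

theorem sim_C_anti {K : Type u} [TopologicalSpace K] [CompactSpace K] (f : ℕ → C(K, ℝ))
    {m n : ℕ} (h : m ≤ n) : sim_C f n ⊆ sim_C f m :=
  closure_mono (convexHull_mono (Set.image_mono (Set.Ici_subset_Ici.2 h)))

theorem sim_C_sub {K : Type u} [TopologicalSpace K] [CompactSpace K] (f : ℕ → C(K, ℝ))
    (n : ℕ) : sim_C f n ⊆ closure (convexHull ℝ (Set.range f)) :=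
  closure_mono (convexHull_mono (Set.image_subset_range _ _))

theorem sim_ge {K : Type u} [TopologicalSpace K] [CompactSpace K] (f : ℕ → C(K, ℝ)) (n : ℕ)
    (t : K) (e : ℝ) (h : ∀ p, n ≤ p → e ≤ f p t) : ∀ y ∈ sim_C f n, e ≤ y t := by
  apply sim_C_min f n {y : C(K, ℝ) | e ≤ y t}
  · exact isClosed_le continuous_const (continuous_eval_const t)
  · intro y hy z hz a b ha hb hab
    have hy' : e ≤ y t := hy
    have hz' : e ≤ z t := hz
    show e ≤ (a • y + b • z) t
    rw [ContinuousMap.add_apply, ContinuousMap.smul_apply, ContinuousMap.smul_apply,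
      smul_eq_mul, smul_eq_mul]
    have h1 := mul_le_mul_of_nonneg_left hy' ha
    have h2 := mul_le_mul_of_nonneg_left hz' hb
    have h3 : e = a * e + b * e := by rw [← add_mul, hab, one_mul]
    linarith
  · exact h

theorem sim_le' {K : Type u} [TopologicalSpace K] [CompactSpace K] (f : ℕ → C(K, ℝ)) (n : ℕ)
    (t : K) (e : ℝ) (h : ∀ p, n ≤ p → f p t ≤ e) : ∀ y ∈ sim_C f n, y t ≤ e := by
  apply sim_C_min f n {y : C(K, ℝ) | y t ≤ e}
  · exact isClosed_le (continuous_eval_const t) continuous_const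
  · intro y hy z hz a b ha hb hab
    have hy' : y t ≤ e := hy
    have hz' : z t ≤ e := hz
    show (a • y + b • z) t ≤ e
    rw [ContinuousMap.add_apply, ContinuousMap.smul_apply, ContinuousMap.smul_apply,
      smul_eq_mul, smul_eq_mul]
    have h1 := mul_le_mul_of_nonneg_left hy' ha
    have h2 := mul_le_mul_of_nonneg_left hz' hb
    have h3 : e = a * e + b * e := by rw [← add_mul, hab, one_mul]
    linarith
  · exact h

theorem sim_norm {K : Type u} [TopologicalSpace K] [CompactSpace K] (f : ℕ → C(K, ℝ)) (n : ℕ)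
    (R : ℝ) (h : ∀ p, ‖f p‖ ≤ R) : ∀ y ∈ sim_C f n, ‖y‖ ≤ R := by
  intro y hy
  have h1 : sim_C f n ⊆ Metric.closedBall (0 : C(K, ℝ)) R := by
    apply sim_C_min f n
    · exact Metric.isClosed_closedBall
    · exact convex_closedBall _ _
    · intro p _
      rw [mem_closedBall_zero_iff]
      exact h p
  have h2 := h1 hy
  rw [mem_closedBall_zero_iff] at h2
  exact h2

theorem st_SIM : ST_SIM.{u} := by
  intro K _ _ B f R hR hmax hB x ε hε
  by_contra hcon
  push Not at hcon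
  have hne : Nonempty K := ⟨x⟩
  -- choice of nearly minimizing elements
  have hchoice : ∀ (n : ℕ) (z : C(K, ℝ)), ∃ y ∈ sim_C f (n + 1), ∀ y' ∈ sim_C f (n + 1),
      sim_S (z + (1 / 2 : ℝ) ^ n • y) ≤ sim_S (z + (1 / 2 : ℝ) ^ n • y') + ε * (1 / 4) ^ (n + 1) := by
    intro n z
    obtain ⟨T, hT⟩ : ∃ T : Set ℝ, T = (fun y => sim_S (z + (1 / 2 : ℝ) ^ n • y)) ''
      sim_C f (n + 1) := ⟨_, rfl⟩
    have hTne : T.Nonempty := by
      rw [hT]
      exact ⟨_, _, sim_C_mem f (n + 1), rfl⟩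
    have hTb : BddBelow T := by
      refine ⟨z x + (1 / 2 : ℝ) ^ n * ε, ?_⟩
      rw [hT]
      rintro _ ⟨y, hy, rfl⟩
      refine le_trans ?_ (sim_le _ x)
      rw [ContinuousMap.add_apply, ContinuousMap.smul_apply, smul_eq_mul]
      have h1 := sim_ge f (n + 1) x ε (fun p _ => hcon p) y hy
      have h2 := mul_le_mul_of_nonneg_left h1 (by positivity : (0 : ℝ) ≤ (1 / 2) ^ n)
      linarith
    obtain ⟨a, haT, ha⟩ := Real.lt_sInf_add_pos hTne
      (by positivity : (0 : ℝ) < ε * (1 / 4) ^ (n + 1))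
    rw [hT] at haT
    obtain ⟨y, hy, rfl⟩ := haT
    refine ⟨y, hy, fun y' hy' => ?_⟩
    have h3 : sInf T ≤ sim_S (z + (1 / 2 : ℝ) ^ n • y') :=
      csInf_le hTb (by rw [hT]; exact ⟨y', hy', rfl⟩)
    have ha' : sim_S (z + (1 / 2 : ℝ) ^ n • y) < sInf T + ε * (1 / 4) ^ (n + 1) := ha
    linarith
  choose Y hYC hYmin using hchoice
  obtain ⟨z, hz0, hzs⟩ : ∃ z : ℕ → C(K, ℝ), z 0 = 0 ∧
      ∀ n, z (n + 1) = z n + (1 / 2 : ℝ) ^ (n + 1) • Y n (z n) :=
    ⟨fun n => Nat.rec 0 (fun n z => z + (1 / 2 : ℝ) ^ (n + 1) • Y n z) n, rfl, fun n => rfl⟩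
  -- convergence
  have hR0 : 0 ≤ R := (norm_nonneg _).trans (hR 0)
  have hcauchy : CauchySeq z := by
    apply cauchySeq_of_le_geometric (1 / 2 : ℝ) R (by norm_num)
    intro n
    rw [hzs, dist_eq_norm]
    have h1 : z n - (z n + (1 / 2 : ℝ) ^ (n + 1) • Y n (z n)) =
        -((1 / 2 : ℝ) ^ (n + 1) • Y n (z n)) := by abel
    rw [h1, norm_neg, norm_smul, Real.norm_of_nonneg (by positivity)]
    have h2 := sim_norm f (n + 1) R hR _ (hYC n (z n))
    have h3 : (1 / 2 : ℝ) ^ (n + 1) * ‖Y n (z n)‖ ≤ (1 / 2 : ℝ) ^ (n + 1) * R :=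
      mul_le_mul_of_nonneg_left h2 (by positivity)
    have h4 : (1 / 2 : ℝ) ^ (n + 1) * R ≤ R * (1 / 2 : ℝ) ^ n := by
      rw [pow_succ]
      have h5 : 0 ≤ R * (1 / 2 : ℝ) ^ n := by positivity
      linarith
    exact h3.trans h4
  obtain ⟨w, hw⟩ := cauchySeq_tendsto_of_complete hcauchy
  -- the tails
  have htail : ∀ n m : ℕ, n ≤ m → ∀ c ∈ sim_C f (n + 1),
      (2 : ℝ) ^ n • (z m - z n) + ((2 : ℝ) ^ n * (1 / 2) ^ m) • c ∈ sim_C f (n + 1) := by
    intro n m hnm
    induction m, hnm using Nat.le_induction with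
    | base =>
      intro c hc
      have h1 : (2 : ℝ) ^ n * (1 / 2) ^ n = 1 := by
        rw [← mul_pow]
        norm_num
      rw [sub_self, smul_zero, zero_add, h1, one_smul]
      exact hc
    | succ m hm ih =>
      intro c hc
      have h2 : (1 / 2 : ℝ) • Y m (z m) + (1 / 2 : ℝ) • c ∈ sim_C f (n + 1) :=
        sim_C_convex f (n + 1) (sim_C_anti f (by omega) (hYC m (z m))) hc (by norm_num)
          (by norm_num) (by norm_num)
      have h3 := ih _ h2
      have h4 : (2 : ℝ) ^ n • (z m - z n) + ((2 : ℝ) ^ n * (1 / 2) ^ m) •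
          ((1 / 2 : ℝ) • Y m (z m) + (1 / 2 : ℝ) • c) =
          (2 : ℝ) ^ n • (z (m + 1) - z n) + ((2 : ℝ) ^ n * (1 / 2) ^ (m + 1)) • c := by
        ext t
        simp only [ContinuousMap.add_apply, ContinuousMap.smul_apply, ContinuousMap.sub_apply,
          smul_eq_mul, hzs, pow_succ]
        ring
      rw [h4] at h3
      exact h3
  have hlim : ∀ n : ℕ, (2 : ℝ) ^ n • (w - z n) ∈ sim_C f (n + 1) := by
    intro n
    have h1 : Tendsto (fun m => (2 : ℝ) ^ n • (z m - z n) +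
        ((2 : ℝ) ^ n * (1 / 2) ^ m) • f (n + 1)) atTop
        (𝓝 ((2 : ℝ) ^ n • (w - z n) + ((2 : ℝ) ^ n * 0) • f (n + 1))) := by
      apply Tendsto.add
      · exact (hw.sub tendsto_const_nhds).const_smul _
      · apply Tendsto.smul_const
        exact (tendsto_pow_atTop_nhds_zero_of_lt_one (by norm_num) (by norm_num)).const_mul _
    rw [mul_zero, zero_smul, add_zero] at h1
    apply (sim_C_closed f (n + 1)).mem_of_tendsto h1
    filter_upwards [eventually_ge_atTop n] with m hm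
    exact htail n m hm _ (sim_C_mem f (n + 1))
  have hw1 : w ∈ sim_C f 1 := by
    have h1 := hlim 0
    rw [hz0, sub_zero, pow_zero, one_smul] at h1
    exact h1
  -- growth
  have hSw : ε ≤ sim_S w := (sim_ge f 1 x ε (fun p _ => hcon p) w hw1).trans (sim_le w x)
  have hgrow : ∀ n : ℕ, (1 / 2 : ℝ) ^ n * ε * (1 / 2 + (1 / 2) ^ (n + 1)) ≤
      sim_S w - sim_S (z n) := by
    intro n
    induction n with
    | zero =>
      have h1 : sim_S (z 0) ≤ 0 := by
        rw [hz0]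
        exact sim_S_le _ _ (fun t => le_rfl)
      norm_num
      linarith
    | succ n ih =>
      have h1 : sim_S (z n + (1 / 2 : ℝ) ^ n • Y n (z n)) ≤
          sim_S w + ε * (1 / 4) ^ (n + 1) := by
        have h2 := hYmin n (z n) _ (hlim n)
        have h3 : z n + (1 / 2 : ℝ) ^ n • ((2 : ℝ) ^ n • (w - z n)) = w := by
          rw [smul_smul, ← mul_pow]
          norm_num
        rw [h3] at h2
        exact h2
      have h4 : sim_S (z (n + 1)) ≤
          (sim_S (z n) + sim_S (z n + (1 / 2 : ℝ) ^ n • Y n (z n))) / 2 := by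
        apply sim_S_le
        intro t
        have h5 := sim_le (z n) t
        have h6 := sim_le (z n + (1 / 2 : ℝ) ^ n • Y n (z n)) t
        rw [ContinuousMap.add_apply, ContinuousMap.smul_apply, smul_eq_mul] at h6
        rw [hzs, ContinuousMap.add_apply, ContinuousMap.smul_apply, smul_eq_mul, pow_succ]
        linarith
      have h7 : (1 / 4 : ℝ) ^ (n + 1) = (1 / 2) ^ (n + 1) * (1 / 2) ^ (n + 1) := by
        rw [← mul_pow]
        norm_num
      rw [h7] at h1
      have h8 : (1 / 2 : ℝ) ^ (n + 1) = (1 / 2) ^ n * (1 / 2) := pow_succ _ _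
      have h9 : (1 / 2 : ℝ) ^ (n + 1 + 1) = (1 / 2) ^ n * (1 / 2) * (1 / 2) := by
        rw [pow_succ, pow_succ]
      rw [h8] at ih h1
      rw [h9, h8]
      have h10 : 0 ≤ (1 / 2 : ℝ) ^ n * ε := by positivity
      nlinarith
  obtain ⟨b, hbB, hb⟩ := hmax w (sim_C_sub f 1 hw1)
  have hwb : sim_S w = w b := le_antisymm (sim_S_le _ _ hb) (sim_le w b)
  obtain ⟨N, hN⟩ := (eventually_atTop.1 (hB b hbB (ε / 4) (by positivity)))
  have h1 := sim_le' f (N + 1) b (ε / 4) (fun p hp => hN p (by omega)) _ (hlim N)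
  rw [ContinuousMap.smul_apply, ContinuousMap.sub_apply, smul_eq_mul] at h1
  have h2 := hgrow N
  have h3 := sim_le (z N) b
  have h4 : (1 / 2 : ℝ) ^ N * ε * (1 / 2) ≤ w b - z N b := by
    have h5 : 0 ≤ (1 / 2 : ℝ) ^ N * ε * (1 / 2) ^ (N + 1) := by positivity
    rw [hwb] at h2
    nlinarith
  have h6 : (2 : ℝ) ^ N * ((1 / 2 : ℝ) ^ N * ε * (1 / 2)) ≤ ε / 4 :=
    (mul_le_mul_of_nonneg_left h4 (by positivity)).trans h1
  have h7 : (2 : ℝ) ^ N * ((1 / 2 : ℝ) ^ N * ε * (1 / 2)) = ε / 2 := by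
    have h8 : (2 : ℝ) ^ N * (1 / 2) ^ N = 1 := by
      rw [← mul_pow]
      norm_num
    calc (2 : ℝ) ^ N * ((1 / 2 : ℝ) ^ N * ε * (1 / 2))
        = ((2 : ℝ) ^ N * (1 / 2) ^ N) * ε * (1 / 2) := by ring
      _ = ε / 2 := by rw [h8]; ring
  rw [h7] at h6
  linarith

end Pool.Agent.Helper40.Nil
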